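import Mathlib

/-!
# Population Lotto: the aggregate strategy of a Nash equilibrium is unique
-/

open MeasureTheory ProbabilityTheory Set Filter Topology
open scoped ENNReal

namespace Pool.Agent.Results.MP_ed16aa_pr.UniqueAggregate

/-! ### Part A: one variable calculus -/

/-- A locally affine function on an open connected set is affine. -/
lemma affine_of_locally {s : Set ℝ} (hs : IsOpen s) (hc : IsPreconnected s) {G : ℝ → ℝ}
    (h : ∀ x ∈ s, ∃ a c, ∀ᶠ y in 𝓝 x, G y = a * y + c) :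
    ∃ a c, ∀ x ∈ s, G x = a * x + c := by
  rcases s.eq_empty_or_nonempty with rfl | ⟨x0, hx0⟩
  · exact ⟨0, 0, by simp⟩
  have hd : ∀ a c x : ℝ, HasDerivAt (fun y => a * y + c) a x := by
    intro a c x
    simpa using ((hasDerivAt_id x).const_mul a).add_const c
  have key : ∀ x ∈ s, HasDerivAt G (deriv G x) x ∧ HasDerivAt (deriv G) 0 x := by
    intro x hx
    obtain ⟨a, c, hac⟩ := h x hx
    have h1 : HasDerivAt G a x := (hd a c x).congr_of_eventuallyEq hac
    have h2 : ∀ᶠ y in 𝓝 x, deriv G y = a := by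
      filter_upwards [hac.eventually_nhds] with y hy
      exact ((hd a c y).congr_of_eventuallyEq hy).deriv
    refine ⟨by rw [h1.deriv]; exact h1, ?_⟩
    exact (hasDerivAt_const x a).congr_of_eventuallyEq h2
  have h3 : ∀ x ∈ s, deriv G x = deriv G x0 := by
    intro x hx
    refine hs.is_const_of_deriv_eq_zero hc ?_ ?_ hx hx0
    · intro y hy; exact (key y hy).2.differentiableAt.differentiableWithinAt
    · intro y hy; simpa using (key y hy).2.deriv
  refine ⟨deriv G x0, G x0 - deriv G x0 * x0, fun x hx => ?_⟩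
  have h4 : ∀ y ∈ s, HasDerivAt (fun y => G y - deriv G x0 * y) 0 y := by
    intro y hy
    have := (key y hy).1.fun_sub ((hasDerivAt_id y).const_mul (deriv G x0))
    rw [h3 y hy] at this
    simpa using this
  have h5 : G x - deriv G x0 * x = G x0 - deriv G x0 * x0 := by
    refine hs.is_const_of_deriv_eq_zero (f := fun y => G y - deriv G x0 * y) hc ?_ ?_ hx hx0
    · intro y hy; exact (h4 y hy).differentiableAt.differentiableWithinAt
    · intro y hy; simpa using (h4 y hy).deriv
  linarith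

/-- The data of the problem seen from the distribution functions. -/
structure Pair (G₁ G₂ u₁ u₂ U : ℝ → ℝ) : Prop where
  cont₁ : Continuous G₁
  cont₂ : Continuous G₂
  conc₁ : ConcaveOn ℝ (Ici 0) G₁
  conc₂ : ConcaveOn ℝ (Ici 0) G₂
  zero₁ : G₁ 0 = 0
  zero₂ : G₂ 0 = 0
  der₁ : ∀ x, HasDerivAt u₁ (G₁ x) x
  der₂ : ∀ x, HasDerivAt u₂ (G₂ x) x
  start₁ : u₁ 0 = 0
  start₂ : u₂ 0 = 0
  ge₁ : ∀ x, 0 ≤ x → U x ≤ u₁ x
  ge₂ : ∀ x, 0 ≤ x → U x ≤ u₂ x
  loc₁ : ∀ x, 0 < x → U x < u₁ x → ∃ a c, ∀ᶠ y in 𝓝 x, G₁ y = a * y + c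
  loc₂ : ∀ x, 0 < x → U x < u₂ x → ∃ a c, ∀ᶠ y in 𝓝 x, G₂ y = a * y + c
  lim₁ : Tendsto G₁ atTop (𝓝 1)
  lim₂ : Tendsto G₂ atTop (𝓝 1)
  inf₁ : ∀ p, 0 ≤ p → (∀ x, p < x → G₁ x = 1) → ∀ x, p < x → u₁ x ≤ u₂ x
  inf₂ : ∀ p, 0 ≤ p → (∀ x, p < x → G₂ x = 1) → ∀ x, p < x → u₂ x ≤ u₁ x

lemma Pair.symm {G₁ G₂ u₁ u₂ U : ℝ → ℝ} (P : Pair G₁ G₂ u₁ u₂ U) : Pair G₂ G₁ u₂ u₁ U :=
  ⟨P.cont₂, P.cont₁, P.conc₂, P.conc₁, P.zero₂, P.zero₁, P.der₂, P.der₁, P.start₂, P.start₁,
    P.ge₂, P.ge₁, P.loc₂, P.loc₁, P.lim₂, P.lim₁, P.inf₂, P.inf₁⟩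

/-- Hermite-Hadamard on an interval on which `u₂ < u₁`. -/
lemma Pair.hh {G₁ G₂ u₁ u₂ U : ℝ → ℝ} (P : Pair G₁ G₂ u₁ u₂ U) {p q : ℝ} (hp : 0 ≤ p)
    (hpq : p < q) (hw : ∀ t ∈ Ioo p q, u₂ t < u₁ t) :
    (∀ t ∈ Icc p q, G₁ t - G₂ t ≤ ((q - t) / (q - p)) * (G₁ p - G₂ p) +
      ((t - p) / (q - p)) * (G₁ q - G₂ q)) ∧
    (u₁ q - u₂ q) - (u₁ p - u₂ p) ≤ (q - p) * ((G₁ p - G₂ p) + (G₁ q - G₂ q)) / 2 := by
  have hqp : 0 < q - p := by linarith
  obtain ⟨a, c, hac⟩ : ∃ a c, ∀ x ∈ Ioo p q, G₁ x = a * x + c := by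
    refine affine_of_locally isOpen_Ioo isPreconnected_Ioo fun x hx => ?_
    have hx0 : 0 < x := lt_of_le_of_lt hp hx.1
    exact P.loc₁ x hx0 (lt_of_le_of_lt (P.ge₂ x hx0.le) (hw x hx))
  have hcl : ∀ x ∈ Icc p q, G₁ x = a * x + c := by
    have h1 : IsClosed {x | G₁ x = a * x + c} :=
      isClosed_eq P.cont₁ (by fun_prop)
    have h2 : closure (Ioo p q) ⊆ {x | G₁ x = a * x + c} :=
      h1.closure_subset_iff.2 hac
    rw [closure_Ioo hpq.ne] at h2
    exact h2
  have hconv : ∀ t ∈ Icc p q, G₁ t - G₂ t ≤ ((q - t) / (q - p)) * (G₁ p - G₂ p) +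
      ((t - p) / (q - p)) * (G₁ q - G₂ q) := by
    intro t ht
    have hcc := P.conc₂.2 (mem_Ici.2 hp) (mem_Ici.2 (show (0:ℝ) ≤ q by linarith))
      (show 0 ≤ (q - t) / (q - p) from div_nonneg (by linarith [ht.2]) hqp.le)
      (show 0 ≤ (t - p) / (q - p) from div_nonneg (by linarith [ht.1]) hqp.le)
      (by field_simp; ring)
    simp only [smul_eq_mul] at hcc
    have e1 : (q - t) / (q - p) * p + (t - p) / (q - p) * q = t := by
      field_simp; ring
    rw [e1] at hcc
    rw [hcl t ht, hcl p ⟨le_rfl, hpq.le⟩, hcl q ⟨hpq.le, le_rfl⟩]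
    have e2 : (q - t) / (q - p) * (a * p + c - G₂ p) + (t - p) / (q - p) * (a * q + c - G₂ q)
        = (a * t + c) - ((q - t) / (q - p) * G₂ p + (t - p) / (q - p) * G₂ q) := by
      field_simp; ring
    rw [e2]; linarith
  refine ⟨hconv, ?_⟩
  set A := G₁ p - G₂ p with hA
  set B := G₁ q - G₂ q with hB
  have hF : ∀ t, HasDerivAt (fun t => (u₁ t - u₂ t) - (A * (t - p) +
      (B - A) * (t - p) ^ 2 / (2 * (q - p)))) ((G₁ t - G₂ t) - (A + (B - A) * (t - p) / (q - p))) t := by
    intro t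
    have h1 := (P.der₁ t).sub (P.der₂ t)
    have h2 : HasDerivAt (fun t : ℝ => t - p) 1 t := (hasDerivAt_id t).sub_const p
    have h3 := (h2.const_mul A).add (((h2.pow 2).const_mul (B - A)).div_const (2 * (q - p)))
    refine (h1.sub h3).congr_deriv ?_
    simp only [Nat.cast_ofNat]
    field_simp
    ring
  have hanti : AntitoneOn (fun t => (u₁ t - u₂ t) - (A * (t - p) +
      (B - A) * (t - p) ^ 2 / (2 * (q - p)))) (Icc p q) := by
    refine antitoneOn_of_deriv_nonpos (convex_Icc p q) ?_ ?_ ?_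
    · exact fun t _ => (hF t).continuousAt.continuousWithinAt
    · exact fun t _ => (hF t).differentiableAt.differentiableWithinAt
    · intro t ht
      rw [interior_Icc] at ht
      rw [(hF t).deriv]
      have := hconv t ⟨ht.1.le, ht.2.le⟩
      have e3 : (q - t) / (q - p) * A + (t - p) / (q - p) * B = A + (B - A) * (t - p) / (q - p) := by
        field_simp; ring
      rw [e3] at this
      linarith
  have := hanti ⟨le_rfl, hpq.le⟩ ⟨hpq.le, le_rfl⟩ hpq.le
  simp only at this
  have e4 : A * (q - p) + (B - A) * (q - p) ^ 2 / (2 * (q - p)) = (q - p) * (A + B) / 2 := by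
    field_simp; ring
  rw [e4] at this
  simp at this
  linarith

/-- The left end of a component of `{u₂ < u₁}`. -/
lemma Pair.left {G₁ G₂ u₁ u₂ U : ℝ → ℝ} (P : Pair G₁ G₂ u₁ u₂ U) {x : ℝ} (hx : 0 ≤ x)
    (hw : u₂ x < u₁ x) : ∃ p, 0 ≤ p ∧ p < x ∧ u₁ p = u₂ p ∧ ∀ t, p < t → t ≤ x → u₂ t < u₁ t := by
  have c1 : Continuous u₁ := continuous_iff_continuousAt.2 fun t => (P.der₁ t).continuousAt
  have c2 : Continuous u₂ := continuous_iff_continuousAt.2 fun t => (P.der₂ t).continuousAt
  have hcomp : IsCompact (Icc 0 x ∩ {t | u₁ t ≤ u₂ t}) :=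
    isCompact_Icc.inter_right (isClosed_le c1 c2)
  have hne : (Icc 0 x ∩ {t | u₁ t ≤ u₂ t}).Nonempty :=
    ⟨0, ⟨le_rfl, hx⟩, by simp [P.start₁, P.start₂]⟩
  obtain ⟨p, hp, hpmax⟩ := hcomp.exists_isGreatest hne
  have hpx : p < x := by
    rcases hp.1.2.lt_or_eq with h | h
    · exact h
    · exfalso; have := hp.2; rw [h] at this; exact absurd hw (not_lt.2 this)
  have hgt : ∀ t, p < t → t ≤ x → u₂ t < u₁ t := by
    intro t h1 h2
    by_contra h3
    exact absurd (hpmax ⟨⟨hp.1.1.trans h1.le, h2⟩, not_lt.1 h3⟩) (not_le.2 h1)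
  refine ⟨p, hp.1.1, hpx, le_antisymm hp.2 ?_, hgt⟩
  have h1 : IsClosed {t | u₂ t ≤ u₁ t} := isClosed_le c2 c1
  have h2 : closure (Ioo p x) ⊆ {t | u₂ t ≤ u₁ t} :=
    h1.closure_subset_iff.2 fun t ht => (hgt t ht.1 ht.2.le).le
  rw [closure_Ioo hpx.ne] at h2
  exact h2 ⟨le_rfl, hpx.le⟩

/-- One step to the left. -/
lemma Pair.step {G₁ G₂ u₁ u₂ U : ℝ → ℝ} (P : Pair G₁ G₂ u₁ u₂ U) {z : ℝ} (hz : 0 < z)
    (hw : u₁ z = u₂ z) (hd : G₁ z < G₂ z) :
    ∃ p, 0 ≤ p ∧ p < z ∧ u₁ p = u₂ p ∧ G₂ z - G₁ z ≤ G₁ p - G₂ p := by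
  -- just to the left of `z` we have `u₂ < u₁`
  have hder := (P.der₁ z).sub (P.der₂ z)
  have hev : ∀ᶠ t in 𝓝[<] z, 0 < u₁ t - u₂ t := by
    have h1 := hder.tendsto_slope
    have h2 : Tendsto (slope (u₁ - u₂) z) (𝓝[<] z) (𝓝 (G₁ z - G₂ z)) :=
      h1.mono_left (nhdsWithin_mono _ fun t ht => ne_of_lt ht)
    have h3 : ∀ᶠ t in 𝓝[<] z, slope (u₁ - u₂) z t < 0 :=
      h2.eventually_lt_const (by linarith)
    filter_upwards [h3, self_mem_nhdsWithin] with t ht1 ht2
    have ht2' : t < z := ht2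
    rw [slope_def_field] at ht1
    have h4 : (u₁ - u₂) t - (u₁ - u₂) z = u₁ t - u₂ t := by
      simp [hw]
    rw [h4] at ht1
    by_contra hcon
    have : 0 ≤ (u₁ t - u₂ t) / (t - z) :=
      div_nonneg_of_nonpos (not_lt.1 hcon) (by linarith)
    linarith
  have hev2 : ∀ᶠ t in 𝓝[<] z, 0 < t :=
    nhdsWithin_le_nhds (lt_mem_nhds hz)
  obtain ⟨l, hl, hl2⟩ := (mem_nhdsLT_iff_exists_Ioo_subset).1 (hev.and hev2)
  have hl' : l < z := hl
  obtain ⟨x, hx1, hx2⟩ := exists_between hl'
  have hx3 := hl2 ⟨hx1, hx2⟩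
  obtain ⟨p, hp0, hpx, hpe, hpt⟩ := P.left hx3.2.le (by linarith [hx3.1])
  have hpt2 : ∀ t ∈ Ioo p z, u₂ t < u₁ t := by
    intro t ht
    rcases le_or_gt t x with h | h
    · exact hpt t ht.1 h
    · have := (hl2 ⟨hx1.trans h, ht.2⟩).1
      linarith
  have hpz : p < z := hpx.trans hx2
  have hh := (P.hh hp0 hpz hpt2).2
  refine ⟨p, hp0, hpz, hpe, ?_⟩
  rw [hw, hpe] at hh
  have h5 : 0 ≤ (z - p) * ((G₁ p - G₂ p) + (G₁ z - G₂ z)) / 2 := by simpa using hh
  have h6 : 0 ≤ (G₁ p - G₂ p) + (G₁ z - G₂ z) := by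
    by_contra hcon
    have : (z - p) * ((G₁ p - G₂ p) + (G₁ z - G₂ z)) < 0 :=
      mul_neg_of_pos_of_neg (by linarith) (not_le.1 hcon)
    linarith
  linarith

/-- At the zeros of `u₁ - u₂` the derivative vanishes. -/
lemma Pair.zeros {G₁ G₂ u₁ u₂ U : ℝ → ℝ} (P : Pair G₁ G₂ u₁ u₂ U) {z : ℝ} (hz : 0 ≤ z)
    (hw : u₁ z = u₂ z) : G₁ z = G₂ z := by
  by_contra hne
  have hc : 0 < |G₁ z - G₂ z| := abs_pos.2 (sub_ne_zero.2 hne)
  have c1 : Continuous u₁ := continuous_iff_continuousAt.2 fun t => (P.der₁ t).continuousAt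
  have c2 : Continuous u₂ := continuous_iff_continuousAt.2 fun t => (P.der₂ t).continuousAt
  have hcomp : IsCompact (Icc 0 z ∩ ({t | u₁ t = u₂ t} ∩ {t | |G₁ z - G₂ z| ≤ |G₁ t - G₂ t|})) :=
    isCompact_Icc.inter_right ((isClosed_eq c1 c2).inter
      (isClosed_le continuous_const (P.cont₁.sub P.cont₂).abs))
  obtain ⟨s, hs, hsmin⟩ := hcomp.exists_isLeast ⟨z, ⟨hz, le_rfl⟩, hw, le_refl |G₁ z - G₂ z|⟩
  have hs0 : 0 < s := by
    rcases hs.1.1.lt_or_eq with h | h
    · exact h
    · exfalso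
      have h1 := hs.2.2
      simp only [mem_ofPred_eq] at h1
      rw [← h, P.zero₁, P.zero₂] at h1
      simp at h1
      exact hne (sub_eq_zero.1 h1)
  have hsc : |G₁ z - G₂ z| ≤ |G₁ s - G₂ s| := hs.2.2
  have hse : u₁ s = u₂ s := hs.2.1
  rcases lt_trichotomy (G₁ s) (G₂ s) with h | h | h
  · obtain ⟨p, hp0, hps, hpe, hpd⟩ := P.step hs0 hse h
    have h1 : |G₁ s - G₂ s| = G₂ s - G₁ s := by
      rw [abs_sub_comm]; exact abs_of_pos (by linarith)
    have h2 : |G₁ z - G₂ z| ≤ |G₁ p - G₂ p| := by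
      have := le_abs_self (G₁ p - G₂ p)
      linarith
    exact absurd (hsmin ⟨⟨hp0, by linarith [hs.1.2]⟩, hpe, h2⟩) (not_le.2 hps)
  · rw [h] at hsc; simp at hsc
    exact hne (sub_eq_zero.1 hsc)
  · obtain ⟨p, hp0, hps, hpe, hpd⟩ := P.symm.step hs0 hse.symm h
    have h1 : |G₁ s - G₂ s| = G₁ s - G₂ s := abs_of_pos (by linarith)
    have h2 : |G₁ z - G₂ z| ≤ |G₁ p - G₂ p| := by
      have := neg_le_abs (G₁ p - G₂ p)
      linarith
    exact absurd (hsmin ⟨⟨hp0, by linarith [hs.1.2]⟩, hpe.symm, h2⟩) (not_le.2 hps)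

/-- The comparison. -/
lemma Pair.core {G₁ G₂ u₁ u₂ U : ℝ → ℝ} (P : Pair G₁ G₂ u₁ u₂ U) {x : ℝ} (hx : 0 ≤ x) :
    u₁ x ≤ u₂ x := by
  by_contra hcon
  have hlt : u₂ x < u₁ x := not_le.1 hcon
  obtain ⟨p, hp0, hpx, hpe, hpt⟩ := P.left hx hlt
  have c1 : Continuous u₁ := continuous_iff_continuousAt.2 fun t => (P.der₁ t).continuousAt
  have c2 : Continuous u₂ := continuous_iff_continuousAt.2 fun t => (P.der₂ t).continuousAt
  by_cases hex : ∃ t, x ≤ t ∧ u₁ t ≤ u₂ t
  · obtain ⟨t1, ht1, ht2⟩ := hex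
    have hcomp : IsCompact (Icc x t1 ∩ {t | u₁ t ≤ u₂ t}) :=
      isCompact_Icc.inter_right (isClosed_le c1 c2)
    obtain ⟨q, hq, hqmin⟩ := hcomp.exists_isLeast ⟨t1, ⟨ht1, le_rfl⟩, ht2⟩
    have hxq : x < q := by
      rcases hq.1.1.lt_or_eq with h | h
      · exact h
      · exfalso; have := hq.2; rw [← h] at this; exact absurd hlt (not_lt.2 this)
    have hall : ∀ t ∈ Ioo p q, u₂ t < u₁ t := by
      intro t ht
      rcases le_or_gt t x with h | h
      · exact hpt t ht.1 h
      · by_contra h3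
        exact absurd (hqmin ⟨⟨h.le, (ht.2.le.trans hq.1.2)⟩, not_lt.1 h3⟩) (not_le.2 ht.2)
    have hpq : p < q := hpx.trans hxq
    have hqe : u₁ q = u₂ q := by
      refine le_antisymm hq.2 ?_
      have h1 : IsClosed {t | u₂ t ≤ u₁ t} := isClosed_le c2 c1
      have h2 : closure (Ioo p q) ⊆ {t | u₂ t ≤ u₁ t} :=
        h1.closure_subset_iff.2 fun t ht => (hall t ht).le
      rw [closure_Ioo hpq.ne] at h2
      exact h2 ⟨hpq.le, le_rfl⟩
    have hGp := P.zeros hp0 hpe
    have hGq := P.zeros (hp0.trans hpq.le) hqe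
    have hneg : ∀ t ∈ Icc p q, G₁ t - G₂ t ≤ 0 := by
      intro t ht
      have := (P.hh hp0 hpq hall).1 t ht
      rw [hGp, hGq] at this
      simpa using this
    have hanti : AntitoneOn (fun t => u₁ t - u₂ t) (Icc p q) := by
      refine antitoneOn_of_deriv_nonpos (convex_Icc p q) ?_ ?_ ?_
      · exact (c1.sub c2).continuousOn
      · exact fun t _ => ((P.der₁ t).sub (P.der₂ t)).differentiableAt.differentiableWithinAt
      · intro t ht
        rw [interior_Icc] at ht
        rw [((P.der₁ t).fun_sub (P.der₂ t)).deriv]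
        exact hneg t ⟨ht.1.le, ht.2.le⟩
    have := hanti ⟨le_rfl, hpq.le⟩ ⟨hpx.le, hxq.le⟩ hpx.le
    simp only at this
    rw [hpe] at this
    linarith
  · push Not at hex
    have hall : ∀ t, p < t → u₂ t < u₁ t := by
      intro t ht
      rcases le_or_gt t x with h | h
      · exact hpt t ht h
      · exact hex t h.le
    obtain ⟨a, c, hac⟩ : ∃ a c, ∀ y ∈ Ioi p, G₁ y = a * y + c := by
      refine affine_of_locally isOpen_Ioi isPreconnected_Ioi fun y hy => ?_
      have hy0 : 0 < y := lt_of_le_of_lt hp0 hy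
      exact P.loc₁ y hy0 (lt_of_le_of_lt (P.ge₂ y hy0.le) (hall y hy))
    -- the slope is zero and the value is one
    have hlim : Tendsto (fun y => a * y + c) atTop (𝓝 1) := by
      refine P.lim₁.congr' ?_
      filter_upwards [eventually_gt_atTop p] with y hy
      exact hac y hy
    have ha : a = 0 := by
      have h1 : Tendsto (fun y : ℝ => (a * (y + 1) + c) - (a * y + c)) atTop (𝓝 (1 - 1)) :=
        (hlim.comp (tendsto_atTop_add_const_right atTop (1 : ℝ) tendsto_id)).sub hlim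
      have h2 : (fun y : ℝ => (a * (y + 1) + c) - (a * y + c)) = fun _ => a := by
        funext y; ring
      rw [h2] at h1
      have := tendsto_nhds_unique h1 tendsto_const_nhds
      simpa using this.symm
    have hone : ∀ y, p < y → G₁ y = 1 := by
      intro y hy
      have h1 : (fun y : ℝ => a * y + c) = fun _ => c := by funext y; simp [ha]
      rw [h1] at hlim
      have h2 := tendsto_nhds_unique hlim tendsto_const_nhds
      rw [hac y hy, ha, h2]; ring
    exact absurd (P.inf₁ p hp0 hone x hpx) (not_le.2 hlt)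

/-! ### Part B: the game -/

/-- A strategy for the budget `b`: a probability distribution on `[0,∞)` with mean exactly `b`. -/
def IsStrategy (b : ℝ) (ν : Measure ℝ) : Prop :=
  IsProbabilityMeasure ν ∧ ν (Iio 0) = 0 ∧ ∫⁻ x, ENNReal.ofReal x ∂ν = ENNReal.ofReal b

/-- The expected payoff of the strategy `ν` against an independent draw `Y` from `g`:
`P(X > Y) + P(X = Y) / 2` for independent `X ∼ ν`, `Y ∼ g`. -/
noncomputable def payoff (ν g : Measure ℝ) : ℝ :=
  (ν.prod g).real {p | p.2 < p.1} + (1 / 2) * (ν.prod g).real {p | p.1 = p.2}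

/-- The payoff of a deterministic draw. -/
noncomputable def rho (g : Measure ℝ) (x : ℝ) : ℝ := g.real (Iio x) + (1 / 2) * g.real {x}

lemma meas_lt : MeasurableSet {p : ℝ × ℝ | p.2 < p.1} :=
  measurableSet_lt measurable_snd measurable_fst

lemma meas_eq : MeasurableSet {p : ℝ × ℝ | p.1 = p.2} :=
  measurableSet_eq_fun measurable_fst measurable_snd

lemma measurable_Iio (g : Measure ℝ) [IsProbabilityMeasure g] : Measurable fun x => g (Iio x) := by
  have := measurable_measure_prodMk_left (ν := g) meas_lt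
  exact this

lemma measurable_sing (g : Measure ℝ) [IsProbabilityMeasure g] :
    Measurable fun x => g {x} := by
  have := measurable_measure_prodMk_left (ν := g) meas_eq
  have h2 : ∀ x : ℝ, Prod.mk x ⁻¹' {p : ℝ × ℝ | p.1 = p.2} = {x} := by
    intro x; ext y; simp [eq_comm]
  simpa only [h2] using this

lemma measurable_rho (g : Measure ℝ) [IsProbabilityMeasure g] : Measurable (rho g) :=
  (measurable_Iio g).ennreal_toReal.add ((measurable_sing g).ennreal_toReal.const_mul _)

lemma rho_nonneg (g : Measure ℝ) (x : ℝ) : 0 ≤ rho g x := by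
  unfold rho; positivity

lemma Iic_eq (g : Measure ℝ) [IsProbabilityMeasure g] (x : ℝ) :
    g.real (Iic x) = g.real (Iio x) + g.real {x} := by
  have h : Iic x = Iio x ∪ {x} := by ext y; simp [le_iff_lt_or_eq]
  rw [h, measureReal_union (by simp) (measurableSet_singleton x)]

lemma rho_le_Iic (g : Measure ℝ) [IsProbabilityMeasure g] (x : ℝ) : rho g x ≤ g.real (Iic x) := by
  rw [Iic_eq]; unfold rho
  have : 0 ≤ g.real {x} := measureReal_nonneg
  linarith

lemma rho_le_one (g : Measure ℝ) [IsProbabilityMeasure g] (x : ℝ) : rho g x ≤ 1 :=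
  (rho_le_Iic g x).trans measureReal_le_one

lemma Iic_le_rho (g : Measure ℝ) [IsProbabilityMeasure g] {x y : ℝ} (h : x < y) :
    g.real (Iic x) ≤ rho g y := by
  have h1 : g.real (Iic x) ≤ g.real (Iio y) := measureReal_mono (Iic_subset_Iio.2 h)
  have : 0 ≤ g.real {y} := measureReal_nonneg
  unfold rho; linarith

lemma integrable_rho (g ν : Measure ℝ) [IsProbabilityMeasure g] [IsFiniteMeasure ν] :
    Integrable (rho g) ν := by
  refine Integrable.of_bound (measurable_rho g).aestronglyMeasurable 1 ?_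
  refine Eventually.of_forall fun x => ?_
  rw [Real.norm_eq_abs, abs_of_nonneg (rho_nonneg g x)]
  exact rho_le_one g x

lemma payoff_eq (ν g : Measure ℝ) [IsProbabilityMeasure ν] [IsProbabilityMeasure g] :
    payoff ν g = ∫ x, rho g x ∂ν := by
  have h1 : (ν.prod g).real {p : ℝ × ℝ | p.2 < p.1} = ∫ x, g.real (Iio x) ∂ν := by
    rw [measureReal_def, Measure.prod_apply meas_lt]
    exact (integral_toReal (measurable_Iio g).aemeasurable
      (Eventually.of_forall fun x => measure_lt_top g _)).symm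
  have h2 : (ν.prod g).real {p : ℝ × ℝ | p.1 = p.2} = ∫ x, g.real {x} ∂ν := by
    rw [measureReal_def, Measure.prod_apply meas_eq]
    have h2 : ∀ x : ℝ, Prod.mk x ⁻¹' {p : ℝ × ℝ | p.1 = p.2} = {x} := by
      intro x; ext y; simp [eq_comm]
    simp only [h2]
    exact (integral_toReal (measurable_sing g).aemeasurable
      (Eventually.of_forall fun x => measure_lt_top g _)).symm
  have i1 : Integrable (fun x => g.real (Iio x)) ν := by
    refine Integrable.of_bound (measurable_Iio g).ennreal_toReal.aestronglyMeasurable 1 ?_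
    refine Eventually.of_forall fun x => ?_
    rw [Real.norm_eq_abs, abs_of_nonneg measureReal_nonneg]
    exact measureReal_le_one
  have i2 : Integrable (fun x => g.real {x}) ν := by
    refine Integrable.of_bound (measurable_sing g).ennreal_toReal.aestronglyMeasurable 1 ?_
    refine Eventually.of_forall fun x => ?_
    rw [Real.norm_eq_abs, abs_of_nonneg measureReal_nonneg]
    exact measureReal_le_one
  unfold payoff rho
  rw [h1, h2, integral_add i1 (i2.const_mul _), integral_const_mul]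

/-- two point laws -/
lemma two_point {y₁ y₂ b : ℝ} (h0 : 0 ≤ y₁) (h1 : y₁ < b) (h2 : b < y₂) (g : Measure ℝ)
    [IsProbabilityMeasure g] :
    ∃ ν, IsStrategy b ν ∧
      payoff ν g = (y₂ - b) / (y₂ - y₁) * rho g y₁ + (b - y₁) / (y₂ - y₁) * rho g y₂ := by
  have hpos : 0 < y₂ - y₁ := by linarith
  have hs0 : 0 ≤ (y₂ - b) / (y₂ - y₁) := div_nonneg (by linarith) hpos.le
  have ht0 : 0 ≤ (b - y₁) / (y₂ - y₁) := div_nonneg (by linarith) hpos.le
  have hst : (y₂ - b) / (y₂ - y₁) + (b - y₁) / (y₂ - y₁) = 1 := by field_simp; ring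
  have hmean : (y₂ - b) / (y₂ - y₁) * y₁ + (b - y₁) / (y₂ - y₁) * y₂ = b := by field_simp; ring
  set s := (y₂ - b) / (y₂ - y₁)
  set t := (b - y₁) / (y₂ - y₁)
  let ν : Measure ℝ := ENNReal.ofReal s • Measure.dirac y₁ + ENNReal.ofReal t • Measure.dirac y₂
  have hp : IsProbabilityMeasure ν := by
    constructor
    simp only [ν, Measure.add_apply, Measure.smul_apply, measure_univ, smul_eq_mul, mul_one]
    rw [← ENNReal.ofReal_add hs0 ht0, hst, ENNReal.ofReal_one]
  refine ⟨ν, ⟨hp, ?_, ?_⟩, ?_⟩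
  · simp only [ν, Measure.add_apply, Measure.smul_apply, smul_eq_mul]
    rw [Measure.dirac_apply' _ measurableSet_Iio, Measure.dirac_apply' _ measurableSet_Iio]
    have h3 : y₁ ∉ Iio (0:ℝ) := by simp [h0]
    have h4 : y₂ ∉ Iio (0:ℝ) := by simp; linarith
    simp [h3, h4]
  · simp only [ν, lintegral_add_measure, lintegral_smul_measure, smul_eq_mul]
    rw [lintegral_dirac' _ (by fun_prop), lintegral_dirac' _ (by fun_prop),
      ← ENNReal.ofReal_mul hs0, ← ENNReal.ofReal_mul ht0,
      ← ENNReal.ofReal_add (mul_nonneg hs0 h0) (mul_nonneg ht0 (by linarith)), hmean]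
  · rw [payoff_eq]
    simp only [ν]
    rw [integral_add_measure, integral_smul_measure, integral_smul_measure,
      integral_dirac' _ _ (measurable_rho g).stronglyMeasurable,
      integral_dirac' _ _ (measurable_rho g).stronglyMeasurable,
      ENNReal.toReal_ofReal hs0, ENNReal.toReal_ofReal ht0]
    · simp
    · exact (integrable_rho g _).smul_measure ENNReal.ofReal_ne_top
    · exact (integrable_rho g _).smul_measure ENNReal.ofReal_ne_top

lemma one_point {b : ℝ} (hb : 0 < b) (g : Measure ℝ) [IsProbabilityMeasure g] :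
    ∃ ν, IsStrategy b ν ∧ payoff ν g = rho g b := by
  refine ⟨Measure.dirac b, ⟨inferInstance, ?_, ?_⟩, ?_⟩
  · rw [Measure.dirac_apply' _ measurableSet_Iio]
    have : b ∉ Iio (0:ℝ) := by simp [hb.le]
    simp [this]
  · rw [lintegral_dirac' _ (by fun_prop)]
  · rw [payoff_eq, integral_dirac' _ _ (measurable_rho g).stronglyMeasurable]

lemma strat_integrable {b : ℝ} {ν : Measure ℝ} (h : IsStrategy b ν) :
    Integrable (fun x => x) ν := by
  have h0 : ∀ᵐ x ∂ν, 0 ≤ x := by
    rw [ae_iff]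
    simpa [Iio] using h.2.1
  refine ⟨measurable_id.aestronglyMeasurable, ?_⟩
  rw [hasFiniteIntegral_iff_norm]
  have : ∫⁻ x, ENNReal.ofReal ‖x‖ ∂ν = ∫⁻ x, ENNReal.ofReal x ∂ν := by
    refine lintegral_congr_ae ?_
    filter_upwards [h0] with x hx
    rw [Real.norm_eq_abs, abs_of_nonneg hx]
  rw [this, h.2.2]
  exact ENNReal.ofReal_lt_top

lemma strat_nonneg {b : ℝ} {ν : Measure ℝ} (h : IsStrategy b ν) : ∀ᵐ x ∂ν, 0 ≤ x := by
  rw [ae_iff]
  simpa [Iio] using h.2.1

lemma strat_mean {b : ℝ} (hb : 0 ≤ b) {ν : Measure ℝ} (h : IsStrategy b ν) : ∫ x, x ∂ν = b := by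
  rw [integral_eq_lintegral_of_nonneg_ae (strat_nonneg h) measurable_id.aestronglyMeasurable,
    h.2.2, ENNReal.toReal_ofReal hb]

/-- The supporting line of a best reply. -/
lemma line {b : ℝ} (hb : 0 < b) (g : Measure ℝ) [IsProbabilityMeasure g] {f : Measure ℝ}
    (hf : IsStrategy b f) (best : ∀ ν, IsStrategy b ν → payoff ν g ≤ payoff f g) :
    ∃ a c, (∀ y, 0 ≤ y → rho g y ≤ a * y + c) ∧ ∀ᵐ y ∂f, rho g y = a * y + c := by
  have := hf.1
  set V := payoff f g with hV
  have hone : rho g b ≤ V := by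
    obtain ⟨ν, h1, h2⟩ := one_point hb g
    rw [← h2]; exact best ν h1
  have htwo : ∀ y₁ y₂, 0 ≤ y₁ → y₁ < b → b < y₂ →
      (rho g y₂ - V) / (y₂ - b) ≤ (V - rho g y₁) / (b - y₁) := by
    intro y₁ y₂ h0 h1 h2
    obtain ⟨ν, h3, h4⟩ := two_point h0 h1 h2 g
    have h5 := best ν h3
    rw [h4] at h5
    have hp : 0 < y₂ - y₁ := by linarith
    have h6 : (y₂ - b) * rho g y₁ + (b - y₁) * rho g y₂ ≤ (y₂ - y₁) * V := by
      have e : (y₂ - b) / (y₂ - y₁) * rho g y₁ + (b - y₁) / (y₂ - y₁) * rho g y₂ =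
        ((y₂ - b) * rho g y₁ + (b - y₁) * rho g y₂) / (y₂ - y₁) := by ring
      rw [e, div_le_iff₀ hp] at h5
      linarith
    rw [div_le_div_iff₀ (by linarith) (by linarith)]
    nlinarith
  let S : Set ℝ := (fun y => (rho g y - V) / (y - b)) '' Ioi b
  have hSne : S.Nonempty := ⟨_, b + 1, by simp, rfl⟩
  have hSb : BddAbove S := by
    refine ⟨(V - rho g 0) / (b - 0), ?_⟩
    rintro _ ⟨y, hy, rfl⟩
    exact htwo 0 y le_rfl hb hy
  set a := sSup S with ha
  refine ⟨a, V - a * b, ?_, ?_⟩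
  · intro y hy
    rcases lt_trichotomy y b with h | h | h
    · have h1 : a ≤ (V - rho g y) / (b - y) := by
        refine csSup_le hSne ?_
        rintro _ ⟨z, hz, rfl⟩
        exact htwo y z hy h hz
      rw [le_div_iff₀ (by linarith)] at h1
      linarith
    · subst h; linarith
    · have h1 : (rho g y - V) / (y - b) ≤ a := le_csSup hSb ⟨y, h, rfl⟩
      rw [div_le_iff₀ (by linarith)] at h1
      linarith
  · have hle : ∀ y, 0 ≤ y → rho g y ≤ a * y + (V - a * b) := by
      intro y hy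
      rcases lt_trichotomy y b with h | h | h
      · have h1 : a ≤ (V - rho g y) / (b - y) := by
          refine csSup_le hSne ?_
          rintro _ ⟨z, hz, rfl⟩
          exact htwo y z hy h hz
        rw [le_div_iff₀ (by linarith)] at h1
        linarith
      · subst h; linarith
      · have h1 : (rho g y - V) / (y - b) ≤ a := le_csSup hSb ⟨y, h, rfl⟩
        rw [div_le_iff₀ (by linarith)] at h1
        linarith
    have i1 : Integrable (fun y => a * y) f := (strat_integrable hf).const_mul a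
    have i2 : Integrable (fun _ : ℝ => V - a * b) f := integrable_const _
    have i3 : Integrable (fun y => a * y + (V - a * b)) f := i1.add i2
    have hint : Integrable (fun y => (a * y + (V - a * b)) - rho g y) f :=
      i3.sub (integrable_rho g f)
    have hzero : ∫ y, ((a * y + (V - a * b)) - rho g y) ∂f = 0 := by
      rw [integral_sub i3 (integrable_rho g f), integral_add i1 i2, integral_const_mul,
        strat_mean hb.le hf, ← payoff_eq, ← hV]
      simp
    have hnn : 0 ≤ᵐ[f] fun y => (a * y + (V - a * b)) - rho g y := by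
      filter_upwards [strat_nonneg hf] with y hy
      have := hle y hy
      simp only [Pi.zero_apply]; linarith
    have := (integral_eq_zero_iff_of_nonneg_ae hnn hint).1 hzero
    filter_upwards [this] with y hy
    simp only [Pi.zero_apply] at hy
    linarith

/-- A Nash equilibrium of the Population Lotto game with budget law `β`.  The continuum of players
is the probability space `(I, m)`, player `i` has the budget `b i` (so `b` has the law `β`) and the
strategy `f i`.  The aggregate population strategy is the average `m.bind f` of the strategies. -/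
structure IsNash {I : Type*} [MeasurableSpace I] (β : Measure ℝ) (m : Measure I) (b : I → ℝ)
    (f : Kernel I ℝ) : Prop where
  prob : IsProbabilityMeasure m
  meas : Measurable b
  budget : m.map b = β
  strategy : ∀ᵐ i ∂m, IsStrategy (b i) (f i)
  best : ∀ᵐ i ∂m, ∀ ν, IsStrategy (b i) ν → payoff ν (m.bind f) ≤ payoff (f i) (m.bind f)

section eq

variable {I : Type*} [MeasurableSpace I] {β : Measure ℝ} {m : Measure I} {b : I → ℝ}
  {f : Kernel I ℝ}

lemma IsNash.gprob (h : IsNash β m b f) : IsProbabilityMeasure (m.bind f) := by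
  have := h.prob
  constructor
  rw [Measure.bind_apply MeasurableSet.univ f.measurable.aemeasurable]
  have : ∫⁻ i, f i univ ∂m = ∫⁻ _, 1 ∂m := by
    refine lintegral_congr_ae ?_
    filter_upwards [h.strategy] with i hi
    have := hi.1
    exact measure_univ
  rw [this]; simp

lemma IsNash.gneg (h : IsNash β m b f) : (m.bind f) (Iio 0) = 0 := by
  rw [Measure.bind_apply measurableSet_Iio f.measurable.aemeasurable]
  have : ∫⁻ i, f i (Iio 0) ∂m = ∫⁻ _, 0 ∂m := by
    refine lintegral_congr_ae ?_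
    filter_upwards [h.strategy] with i hi
    exact hi.2.1
  rw [this]; simp

lemma IsNash.pos (h : IsNash β m b f) (hβ : β (Iic 0) = 0) : ∀ᵐ i ∂m, 0 < b i := by
  rw [← h.budget, Measure.map_apply h.meas measurableSet_Iic] at hβ
  rw [ae_iff]
  simpa [Iic] using hβ

/-- every good player has a supporting line -/
lemma IsNash.lines (h : IsNash β m b f) (hβ : β (Iic 0) = 0) :
    ∀ᵐ i ∂m, IsStrategy (b i) (f i) ∧ 0 < b i ∧
      ∃ a c, (∀ y, 0 ≤ y → rho (m.bind f) y ≤ a * y + c) ∧
        ∀ᵐ y ∂(f i), rho (m.bind f) y = a * y + c := by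
  have := h.gprob
  filter_upwards [h.pos hβ, h.strategy, h.best] with i h1 h2 h3
  exact ⟨h2, h1, line h1 _ h2 h3⟩

lemma IsNash.noatom (h : IsNash β m b f) (hβ : β (Iic 0) = 0) (x : ℝ) :
    (m.bind f) {x} = 0 := by
  have hg := h.gprob
  by_contra hne
  set g := m.bind f with hgdef
  have hx : 0 ≤ x := by
    by_contra hx
    exact hne (measure_mono_null (by simpa using not_le.1 hx) h.gneg)
  have h1 : ∫⁻ i, f i {x} ∂m ≠ 0 := by
    rw [← Measure.bind_apply (measurableSet_singleton x) f.measurable.aemeasurable]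
    exact hne
  have h2 : ¬ ∀ᵐ i ∂m, f i {x} = 0 := by
    intro h3
    exact h1 (by rw [lintegral_congr_ae (g := fun _ => 0) h3]; simp)
  have h3 : ∃ᵐ i ∂m, ¬ f i {x} = 0 := by
    rw [Filter.Frequently]
    simpa using h2
  obtain ⟨i, hi1, hi2⟩ := (h3.and_eventually (h.lines hβ)).exists
  obtain ⟨hs, hb, a, c, hle, hae⟩ := hi2
  have hxe : rho g x = a * x + c := by
    by_contra hcon
    exact hi1 (measure_mono_null (by simpa using hcon) (ae_iff.1 hae))
  have hjump : g.real (Iic x) = rho g x + (1 / 2) * g.real {x} := by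
    rw [Iic_eq]; unfold rho; ring
  have hpos : 0 < g.real {x} := by
    rw [measureReal_def]
    exact ENNReal.toReal_pos hne (measure_ne_top _ _)
  have hlow : ∀ y, x < y → g.real (Iic x) ≤ a * y + c := fun y hy =>
    (Iic_le_rho g hy).trans (hle y (hx.trans hy.le))
  have hlim : g.real (Iic x) ≤ a * x + c := by
    have ht : Tendsto (fun y => a * y + c) (𝓝[>] x) (𝓝 (a * x + c)) := by
      have : Continuous fun y : ℝ => a * y + c := by fun_prop
      exact (this.tendsto x).mono_left nhdsWithin_le_nhds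
    refine ge_of_tendsto ht ?_
    filter_upwards [self_mem_nhdsWithin] with y hy
    exact hlow y hy
  linarith

/-- distribution function of the aggregate -/
noncomputable def G (g : Measure ℝ) (x : ℝ) : ℝ := g.real (Iic x)

lemma rho_eq_G {g : Measure ℝ} [IsProbabilityMeasure g] (hg : ∀ x, g {x} = 0) (x : ℝ) :
    rho g x = G g x := by
  unfold rho G
  rw [Iic_eq]; simp [measureReal_def, hg]

lemma G_cont {g : Measure ℝ} [IsProbabilityMeasure g] (hg : ∀ x, g {x} = 0) :
    Continuous (G g) := by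
  have h0 : G g = cdf g := by
    funext x; rw [cdf_eq_real]; rfl
  rw [h0, continuous_iff_continuousAt]
  intro x
  rw [(monotone_cdf g).continuousAt_iff_leftLim_eq_rightLim]
  have h1 : (cdf g).measure {x} = 0 := by rw [measure_cdf]; exact hg x
  rw [StieltjesFunction.measure_singleton, ENNReal.ofReal_eq_zero] at h1
  have h2 : Function.leftLim (cdf g) x ≤ cdf g x := (monotone_cdf g).leftLim_le le_rfl
  rw [StieltjesFunction.rightLim_eq]
  linarith

lemma G_mono {g : Measure ℝ} [IsProbabilityMeasure g] : Monotone (G g) := fun _ _ h =>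
  measureReal_mono (Iic_subset_Iic.2 h)

lemma IsNash.conc (h : IsNash β m b f) (hβ : β (Iic 0) = 0) :
    ConcaveOn ℝ (Ici 0) (G (m.bind f)) := by
  have hg := h.gprob
  have hna := h.noatom hβ
  set g := m.bind f with hgdef
  have hcont : Continuous (G g) := G_cont hna
  -- almost every point has a supporting line
  let T : Set ℝ := {x | ∃ a c, (∀ y, 0 ≤ y → G g y ≤ a * y + c) ∧ G g x = a * x + c}
  have hT : ∀ᵐ i ∂m, f i Tᶜ = 0 := by
    filter_upwards [h.lines hβ] with i hi
    obtain ⟨hs, hb, a, c, hle, hae⟩ := hi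
    have : ∀ᵐ y ∂(f i), y ∈ T := by
      filter_upwards [hae] with y hy
      refine ⟨a, c, fun z hz => ?_, ?_⟩
      · rw [← rho_eq_G hna]; exact hle z hz
      · rw [← rho_eq_G hna]; exact hy
    exact this
  -- an open interval without points of `T` is null
  have hnull : ∀ p q, (∀ x ∈ Ioo p q, x ∉ T) → g (Ioo p q) = 0 := by
    intro p q hpq
    rw [hgdef, Measure.bind_apply measurableSet_Ioo f.measurable.aemeasurable]
    have : ∫⁻ i, f i (Ioo p q) ∂m = ∫⁻ _, 0 ∂m := by
      refine lintegral_congr_ae ?_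
      filter_upwards [hT] with i hi
      exact measure_mono_null (fun x hx => hpq x hx) hi
    rw [this]; simp
  refine ⟨convex_Ici 0, ?_⟩
  intro x hx z hz s t hs ht hst
  simp only [smul_eq_mul]
  -- wlog x < z
  have main : ∀ x z : ℝ, 0 ≤ x → x < z → ∀ y, x < y → y < z →
      (z - y) * G g x + (y - x) * G g z ≤ (z - x) * G g y := by
    intro x z hx hxz y hxy hyz
    by_contra hcon
    have hlt : (z - x) * G g y < (z - y) * G g x + (y - x) * G g z := not_le.1 hcon
    let D : ℝ → ℝ := fun t => (z - x) * G g t - ((z - t) * G g x + (t - x) * G g z)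
    have hD : Continuous D := by
      have := hcont
      simp only [D]; fun_prop
    have hDx : D x = 0 := by simp only [D]; ring
    have hDz : D z = 0 := by simp only [D]; ring
    have hDy : D y < 0 := by simp only [D]; linarith
    have hTD : ∀ t, x < t → t < z → t ∈ T → 0 ≤ D t := by
      rintro t h1 h2 ⟨a, c, hle, he⟩
      have e1 := hle x hx
      have e2 := hle z (by linarith)
      simp only [D]
      rw [he]
      have e3 : (z - t) * G g x ≤ (z - t) * (a * x + c) :=
        mul_le_mul_of_nonneg_left e1 (by linarith)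
      have e4 : (t - x) * G g z ≤ (t - x) * (a * z + c) :=
        mul_le_mul_of_nonneg_left e2 (by linarith)
      nlinarith
    -- the component of `D < 0` containing `y`
    have hc1 : IsCompact (Icc x y ∩ {t | 0 ≤ D t}) :=
      isCompact_Icc.inter_right (isClosed_le continuous_const hD)
    obtain ⟨p, hp, hpmax⟩ := hc1.exists_isGreatest ⟨x, ⟨le_rfl, hxy.le⟩, hDx.ge⟩
    have hc2 : IsCompact (Icc y z ∩ {t | 0 ≤ D t}) :=
      isCompact_Icc.inter_right (isClosed_le continuous_const hD)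
    obtain ⟨q, hq, hqmin⟩ := hc2.exists_isLeast ⟨z, ⟨hyz.le, le_rfl⟩, hDz.ge⟩
    have hDp : 0 ≤ D p := hp.2
    have hDq : 0 ≤ D q := hq.2
    have hpy : p < y := by
      rcases hp.1.2.lt_or_eq with h | h
      · exact h
      · exfalso; rw [h] at hDp; linarith
    have hyq : y < q := by
      rcases hq.1.1.lt_or_eq with h | h
      · exact h
      · exfalso; rw [← h] at hDq; linarith
    have hneg : ∀ t ∈ Ioo p q, D t < 0 := by
      intro t ht
      by_contra h3
      have h3' : 0 ≤ D t := not_lt.1 h3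
      rcases le_or_gt t y with h | h
      · exact absurd (hpmax ⟨⟨hp.1.1.trans ht.1.le, h⟩, h3'⟩) (not_le.2 ht.1)
      · exact absurd (hqmin ⟨⟨h.le, ht.2.le.trans hq.1.2⟩, h3'⟩) (not_le.2 ht.2)
    have hz0 : g (Ioo p q) = 0 := by
      refine hnull p q fun t ht htT => ?_
      have := hTD t (lt_of_le_of_lt hp.1.1 ht.1) (lt_of_lt_of_le ht.2 hq.1.2) htT
      linarith [hneg t ht]
    have hGpq : G g q ≤ G g p := by
      unfold G
      have e1 : Iic q ⊆ Iic p ∪ (Ioo p q ∪ {q}) := by
        intro w hw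
        rcases le_or_gt w p with h | h
        · exact Or.inl h
        · right
          rcases (show w ≤ q from hw).lt_or_eq with h2 | h2
          · exact Or.inl ⟨h, h2⟩
          · exact Or.inr h2
      have e2 : g (Iic q) ≤ g (Iic p) := by
        calc g (Iic q) ≤ g (Iic p ∪ (Ioo p q ∪ {q})) := measure_mono e1
          _ ≤ g (Iic p) + (g (Ioo p q) + g {q}) :=
              (measure_union_le _ _).trans (by gcongr; exact measure_union_le _ _)
          _ = g (Iic p) := by rw [hz0, hna q]; simp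
      exact ENNReal.toReal_mono (measure_ne_top _ _) e2
    have m1 : G g p ≤ G g y := G_mono hpy.le
    have m2 : G g y ≤ G g q := G_mono hyq.le
    have e1 : G g p = G g y := le_antisymm m1 (m2.trans hGpq)
    have e2 : G g q = G g y := le_antisymm (hGpq.trans m1) m2
    simp only [D] at hDp hDq hDy
    rw [e1] at hDp
    rw [e2] at hDq
    -- slopes
    have s1 : (y - p) * (G g x - G g z) < 0 := by nlinarith
    have s2 : 0 < (q - y) * (G g x - G g z) := by nlinarith
    have s3 : G g x - G g z < 0 := by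
      by_contra h3
      have := mul_nonneg (show 0 ≤ y - p by linarith) (not_lt.1 h3)
      linarith
    have s4 : (q - y) * (G g x - G g z) ≤ 0 :=
      mul_nonpos_of_nonneg_of_nonpos (by linarith) s3.le
    linarith
  have hx' : (0:ℝ) ≤ x := hx
  have hz' : (0:ℝ) ≤ z := hz
  rcases hs.eq_or_lt with h | h
  · have : t = 1 := by linarith
    subst this; rw [← h]; simp
  rcases ht.eq_or_lt with h2 | h2
  · have : s = 1 := by linarith
    subst this; rw [← h2]; simp
  rcases lt_trichotomy x z with h3 | h3 | h3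
  · have hy1 : x < s * x + t * z := by
      have : s * x + t * z - x = t * (z - x) := by
        have : s = 1 - t := by linarith
        subst this; ring
      have := mul_pos h2 (sub_pos.2 h3)
      linarith
    have hy2 : s * x + t * z < z := by
      have : z - (s * x + t * z) = s * (z - x) := by
        have : t = 1 - s := by linarith
        subst this; ring
      have := mul_pos h (sub_pos.2 h3)
      linarith
    have := main x z hx' h3 _ hy1 hy2
    have e1 : z - (s * x + t * z) = s * (z - x) := by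
      have : t = 1 - s := by linarith
      subst this; ring
    have e2 : s * x + t * z - x = t * (z - x) := by
      have : s = 1 - t := by linarith
      subst this; ring
    rw [e1, e2] at this
    have hzx : 0 < z - x := by linarith
    have e3 : (z - x) * (s * G g x + t * G g z) ≤ (z - x) * G g (s * x + t * z) := by linarith
    exact le_of_mul_le_mul_left e3 hzx
  · subst h3
    have : s * x + t * x = x := by rw [← add_mul, hst, one_mul]
    rw [this, ← add_mul, hst, one_mul]
  · have hy1 : z < s * x + t * z := by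
      have : s * x + t * z - z = s * (x - z) := by
        have : t = 1 - s := by linarith
        subst this; ring
      have := mul_pos h (sub_pos.2 h3)
      linarith
    have hy2 : s * x + t * z < x := by
      have : x - (s * x + t * z) = t * (x - z) := by
        have : s = 1 - t := by linarith
        subst this; ring
      have := mul_pos h2 (sub_pos.2 h3)
      linarith
    have := main z x hz' h3 _ hy1 hy2
    have e1 : x - (s * x + t * z) = t * (x - z) := by
      have : s = 1 - t := by linarith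
      subst this; ring
    have e2 : s * x + t * z - z = s * (x - z) := by
      have : t = 1 - s := by linarith
      subst this; ring
    rw [e1, e2] at this
    have hzx : 0 < x - z := by linarith
    have e3 : (x - z) * (s * G g x + t * G g z) ≤ (x - z) * G g (s * x + t * z) := by linarith
    exact le_of_mul_le_mul_left e3 hzx

/-- The expected positive part `E (x - Y)⁺`. -/
noncomputable def W (μ : Measure ℝ) (x : ℝ) : ℝ := ∫ y, max (x - y) 0 ∂μ

lemma ofReal_max' (t : ℝ) : ENNReal.ofReal (max t 0) = ENNReal.ofReal t := by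
  rcases le_total t 0 with h | h
  · rw [max_eq_right h, ENNReal.ofReal_zero, ENNReal.ofReal_of_nonpos h]
  · rw [max_eq_left h]

lemma W_int {μ : Measure ℝ} [IsProbabilityMeasure μ] (hμ : μ (Iio 0) = 0) (x : ℝ) :
    Integrable (fun y => max (x - y) 0) μ := by
  refine Integrable.of_bound (by fun_prop) |x| ?_
  have h0 : ∀ᵐ y ∂μ, 0 ≤ y := by
    rw [ae_iff]; simpa [Iio] using hμ
  filter_upwards [h0] with y hy
  rw [Real.norm_eq_abs, abs_of_nonneg (le_max_right _ _)]
  refine max_le ?_ (abs_nonneg x)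
  have := le_abs_self x
  linarith

lemma W_eq {μ : Measure ℝ} [IsProbabilityMeasure μ] (x : ℝ) :
    W μ x = (∫⁻ y, ENNReal.ofReal (x - y) ∂μ).toReal := by
  unfold W
  rw [integral_eq_lintegral_of_nonneg_ae (f := fun y => max (x - y) 0)
    (Eventually.of_forall fun y => le_max_right _ _) (by fun_prop)]
  simp only [ofReal_max']

lemma W_lt_top {μ : Measure ℝ} [IsProbabilityMeasure μ] (hμ : μ (Iio 0) = 0) (x : ℝ) :
    ∫⁻ y, ENNReal.ofReal (x - y) ∂μ ≠ ⊤ := by
  have h0 : ∀ᵐ y ∂μ, 0 ≤ y := by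
    rw [ae_iff]; simpa [Iio] using hμ
  have h1 : ∫⁻ y, ENNReal.ofReal (x - y) ∂μ ≤ ∫⁻ _, ENNReal.ofReal x ∂μ := by
    refine lintegral_mono_ae ?_
    filter_upwards [h0] with y hy
    exact ENNReal.ofReal_le_ofReal (by linarith)
  refine ne_top_of_le_ne_top ?_ h1
  simp

lemma W_deriv {g : Measure ℝ} [IsProbabilityMeasure g] (hneg : g (Iio 0) = 0)
    (hna : ∀ x, g {x} = 0) (x : ℝ) : HasDerivAt (W g) (G g x) x := by
  have key := hasDerivAt_integral_of_dominated_loc_of_lip (μ := g) (s := univ)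
    (F := fun x y : ℝ => max (x - y) 0) (x₀ := x) (bound := fun _ => 1)
    (F' := (Iic x).indicator fun _ => (1 : ℝ)) univ_mem
    (Eventually.of_forall fun z => by fun_prop) (W_int hneg x)
    ((measurable_const.indicator measurableSet_Iic).aestronglyMeasurable)
    (Eventually.of_forall fun y => ?_) (integrable_const _) ?_
  · have h1 := key.2
    rw [integral_indicator measurableSet_Iic, setIntegral_const] at h1
    simp only [smul_eq_mul, mul_one] at h1
    exact h1
  · refine LipschitzWith.lipschitzOnWith ?_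
    have h1 : LipschitzWith 1 fun z : ℝ => max (z - y) 0 := by
      refine LipschitzWith.of_dist_le_mul fun a c => ?_
      rw [Real.dist_eq, Real.dist_eq]
      have := abs_max_sub_max_le_abs (a - y) (c - y) 0
      simpa using this
    simpa using h1
  · have hx : ∀ᵐ y ∂g, y ≠ x := by
      rw [ae_iff]; simpa using hna x
    filter_upwards [hx] with y hy
    rcases lt_or_gt_of_ne hy with h | h
    · rw [indicator_of_mem (show y ∈ Iic x from h.le)]
      have h1 : HasDerivAt (fun z : ℝ => z - y) 1 x := (hasDerivAt_id x).sub_const y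
      refine h1.congr_of_eventuallyEq ?_
      filter_upwards [lt_mem_nhds h] with z hz
      exact max_eq_left (by linarith)
    · rw [indicator_of_notMem (show y ∉ Iic x from not_le.2 h)]
      refine (hasDerivAt_const x (0:ℝ)).congr_of_eventuallyEq ?_
      filter_upwards [gt_mem_nhds h] with z hz
      exact max_eq_right (by linarith)

lemma W_zero {g : Measure ℝ} (hneg : g (Iio 0) = 0) : W g 0 = 0 := by
  have h0 : ∀ᵐ y ∂g, 0 ≤ y := by
    rw [ae_iff]; simpa [Iio] using hneg
  unfold W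
  rw [integral_congr_ae (g := fun _ => (0:ℝ))]
  · simp
  · filter_upwards [h0] with y hy
    exact max_eq_right (by linarith)

/-- Jensen for one strategy -/
lemma jensen {c : ℝ} {ν : Measure ℝ} (hc : 0 ≤ c) (h : IsStrategy c ν) (x : ℝ) :
    ENNReal.ofReal (x - c) ≤ ∫⁻ y, ENNReal.ofReal (x - y) ∂ν := by
  have := h.1
  have h1 : ∫ y, (x - y) ∂ν = x - c := by
    rw [integral_sub (integrable_const _) (strat_integrable h), strat_mean hc h]; simp
  have h2 : x - c ≤ W ν x := by
    rw [← h1]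
    exact integral_mono ((integrable_const _).sub (strat_integrable h)) (W_int h.2.1 x)
      fun y => le_max_left _ _
  rw [W_eq] at h2
  exact (ENNReal.ofReal_le_ofReal h2).trans ENNReal.ofReal_toReal_le

lemma IsNash.lint (_h : IsNash β m b f) (x : ℝ) :
    ∫⁻ y, ENNReal.ofReal (x - y) ∂(m.bind f) = ∫⁻ i, ∫⁻ y, ENNReal.ofReal (x - y) ∂(f i) ∂m := by
  rw [Measure.lintegral_bind f.measurable.aemeasurable (by fun_prop)]

lemma IsNash.lintβ (h : IsNash β m b f) (x : ℝ) :
    ∫⁻ y, ENNReal.ofReal (x - y) ∂β = ∫⁻ i, ENNReal.ofReal (x - b i) ∂m := by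
  rw [← h.budget, lintegral_map (by fun_prop) h.meas]

lemma IsNash.mean (h : IsNash β m b f) :
    ∫⁻ y, ENNReal.ofReal y ∂(m.bind f) = ∫⁻ y, ENNReal.ofReal y ∂β := by
  rw [Measure.lintegral_bind f.measurable.aemeasurable (by fun_prop), ← h.budget,
    lintegral_map (by fun_prop) h.meas]
  refine lintegral_congr_ae ?_
  filter_upwards [h.strategy] with i hi
  exact hi.2.2

lemma IsNash.ge (h : IsNash β m b f) (hβ : β (Iic 0) = 0) [IsProbabilityMeasure β] (x : ℝ) :
    W β x ≤ W (m.bind f) x := by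
  have := h.gprob
  rw [W_eq, W_eq]
  refine ENNReal.toReal_mono (W_lt_top h.gneg x) ?_
  rw [h.lint, h.lintβ]
  refine lintegral_mono_ae ?_
  filter_upwards [h.strategy, h.pos hβ] with i hi hp
  exact jensen hp.le hi x

lemma IsNash.loc (h : IsNash β m b f) (hβ : β (Iic 0) = 0) [IsProbabilityMeasure β] {x : ℝ}
    (hx : W β x < W (m.bind f) x) :
    ∃ a c, ∀ᶠ y in 𝓝 x, G (m.bind f) y = a * y + c := by
  have hg := h.gprob
  have hna := h.noatom hβ
  have hβneg : β (Iio 0) = 0 := measure_mono_null Iio_subset_Iic_self hβ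
  have h1 : ¬ ∀ᵐ i ∂m, ∫⁻ y, ENNReal.ofReal (x - y) ∂(f i) ≤ ENNReal.ofReal (x - b i) := by
    intro hcon
    have : W (m.bind f) x ≤ W β x := by
      rw [W_eq, W_eq]
      refine ENNReal.toReal_mono (W_lt_top hβneg x) ?_
      rw [h.lint, h.lintβ]
      exact lintegral_mono_ae hcon
    linarith
  have h2 : ∃ᵐ i ∂m, ¬ ∫⁻ y, ENNReal.ofReal (x - y) ∂(f i) ≤ ENNReal.ofReal (x - b i) := by
    rw [Filter.Frequently]
    simpa using h1
  obtain ⟨i, hi1, hi2⟩ := (h2.and_eventually (h.lines hβ)).exists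
  obtain ⟨hs, hb, a, c, hle, hae⟩ := hi2
  have hfp := hs.1
  have hnn := strat_nonneg hs
  have hL : f i (Iio x) ≠ 0 := by
    intro h0
    apply hi1
    have h3 : ∀ᵐ y ∂(f i), x ≤ y := by
      rw [ae_iff]; simpa [Iio] using h0
    have h4 : ∫⁻ y, ENNReal.ofReal (x - y) ∂(f i) = ∫⁻ _, 0 ∂(f i) := by
      refine lintegral_congr_ae ?_
      filter_upwards [h3] with y hy
      exact ENNReal.ofReal_of_nonpos (by linarith)
    rw [h4]; simp
  have hR : f i (Ioi x) ≠ 0 := by
    intro h0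
    apply hi1
    have h3 : ∀ᵐ y ∂(f i), y ≤ x := by
      rw [ae_iff]; simpa [Ioi] using h0
    have h4 : ∫ y, (x - y) ∂(f i) = x - b i := by
      rw [integral_sub (integrable_const _) (strat_integrable hs), strat_mean hb.le hs]; simp
    have h5 : Integrable (fun y : ℝ => x - y) (f i) :=
      (integrable_const x).sub (strat_integrable hs)
    have h6 : 0 ≤ᵐ[f i] fun y : ℝ => x - y := by
      filter_upwards [h3] with y hy
      simp only [Pi.zero_apply]; linarith
    rw [← h4, ofReal_integral_eq_lintegral_ofReal h5 h6]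
  have hfr1 : ∃ᵐ y ∂(f i), y ∈ Iio x := by
    rw [Filter.Frequently]
    intro hcon
    have h3 := ae_iff.1 hcon
    simp only [not_not] at h3
    exact hL h3
  have hfr2 : ∃ᵐ y ∂(f i), y ∈ Ioi x := by
    rw [Filter.Frequently]
    intro hcon
    have h3 := ae_iff.1 hcon
    simp only [not_not] at h3
    exact hR h3
  obtain ⟨y₁, hy1, hy1'⟩ := (hfr1.and_eventually (hae.and hnn)).exists
  obtain ⟨y₂, hy2, hy2'⟩ := (hfr2.and_eventually (hae.and hnn)).exists
  have hy1 : y₁ < x := hy1
  have hy2 : x < y₂ := hy2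
  have e1 : G (m.bind f) y₁ = a * y₁ + c := by rw [← rho_eq_G hna]; exact hy1'.1
  have e2 : G (m.bind f) y₂ = a * y₂ + c := by rw [← rho_eq_G hna]; exact hy2'.1
  refine ⟨a, c, ?_⟩
  filter_upwards [Icc_mem_nhds hy1 hy2] with y hy
  have hpos : 0 < y₂ - y₁ := by linarith
  refine le_antisymm ?_ ?_
  · rw [← rho_eq_G hna]; exact hle y (hy1'.2.trans hy.1)
  · have hcc := (h.conc hβ).2 (mem_Ici.2 hy1'.2) (mem_Ici.2 hy2'.2)
      (show 0 ≤ (y₂ - y) / (y₂ - y₁) from div_nonneg (by linarith [hy.2]) hpos.le)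
      (show 0 ≤ (y - y₁) / (y₂ - y₁) from div_nonneg (by linarith [hy.1]) hpos.le)
      (by field_simp; ring)
    simp only [smul_eq_mul] at hcc
    have e3 : (y₂ - y) / (y₂ - y₁) * y₁ + (y - y₁) / (y₂ - y₁) * y₂ = y := by
      field_simp; ring
    rw [e3, e1, e2] at hcc
    have e4 : (y₂ - y) / (y₂ - y₁) * (a * y₁ + c) + (y - y₁) / (y₂ - y₁) * (a * y₂ + c)
        = a * y + c := by
      field_simp; ring
    linarith

lemma G_lim {g : Measure ℝ} [IsProbabilityMeasure g] : Tendsto (G g) atTop (𝓝 1) := by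
  have h0 : G g = cdf g := by
    funext x; rw [cdf_eq_real]; rfl
  rw [h0]; exact tendsto_cdf_atTop g

lemma G_zero {g : Measure ℝ} [IsProbabilityMeasure g] (hneg : g (Iio 0) = 0)
    (hna : ∀ x, g {x} = 0) : G g 0 = 0 := by
  unfold G
  rw [Iic_eq]; simp [measureReal_def, hneg, hna]

lemma inf_aux {g₁ g₂ : Measure ℝ} [IsProbabilityMeasure g₁] [IsProbabilityMeasure g₂]
    (hn1 : g₁ (Iio 0) = 0) (hn2 : g₂ (Iio 0) = 0)
    (hmean : ∫⁻ y, ENNReal.ofReal y ∂g₁ = ∫⁻ y, ENNReal.ofReal y ∂g₂) {x : ℝ}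
    (hx : G g₁ x = 1) : W g₁ x ≤ W g₂ x := by
  have hnn1 : ∀ᵐ y ∂g₁, 0 ≤ y := by rw [ae_iff]; simpa [Iio] using hn1
  have hnn2 : ∀ᵐ y ∂g₂, 0 ≤ y := by rw [ae_iff]; simpa [Iio] using hn2
  have hle : ∀ᵐ y ∂g₁, y ≤ x := by
    have h1 : g₁ (Iic x) = 1 := by
      have : g₁.real (Iic x) = 1 := hx
      rw [measureReal_def] at this
      rw [← ENNReal.ofReal_toReal (measure_ne_top g₁ (Iic x)), this, ENNReal.ofReal_one]
    have h2 := (prob_compl_eq_zero_iff (μ := g₁) measurableSet_Iic).2 h1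
    rw [ae_iff]
    simpa [Iic, compl_def] using h2
  have hfin1 : ∫⁻ y, ENNReal.ofReal y ∂g₁ ≠ ⊤ := by
    have h1 : ∫⁻ y, ENNReal.ofReal y ∂g₁ ≤ ∫⁻ _, ENNReal.ofReal x ∂g₁ := by
      refine lintegral_mono_ae ?_
      filter_upwards [hle] with y hy
      exact ENNReal.ofReal_le_ofReal hy
    refine ne_top_of_le_ne_top ?_ h1
    simp
  have hfin2 : ∫⁻ y, ENNReal.ofReal y ∂g₂ ≠ ⊤ := hmean ▸ hfin1
  have hint : ∀ (g : Measure ℝ), (∀ᵐ y ∂g, 0 ≤ y) → ∫⁻ y, ENNReal.ofReal y ∂g ≠ ⊤ →
      Integrable (fun y : ℝ => y) g := by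
    intro g h0 hfin
    refine ⟨measurable_id.aestronglyMeasurable, ?_⟩
    rw [hasFiniteIntegral_iff_norm]
    have : ∫⁻ x, ENNReal.ofReal ‖x‖ ∂g = ∫⁻ x, ENNReal.ofReal x ∂g := by
      refine lintegral_congr_ae ?_
      filter_upwards [h0] with x hx
      rw [Real.norm_eq_abs, abs_of_nonneg hx]
    rw [this]
    exact hfin.lt_top
  have i1 := hint g₁ hnn1 hfin1
  have i2 := hint g₂ hnn2 hfin2
  have hm : ∫ y, y ∂g₁ = ∫ y, y ∂g₂ := by
    rw [integral_eq_lintegral_of_nonneg_ae hnn1 measurable_id.aestronglyMeasurable,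
      integral_eq_lintegral_of_nonneg_ae hnn2 measurable_id.aestronglyMeasurable, hmean]
  have e1 : W g₁ x = ∫ y, (x - y) ∂g₁ := by
    refine integral_congr_ae ?_
    filter_upwards [hle] with y hy
    exact max_eq_left (by linarith)
  have e2 : ∫ y, (x - y) ∂g₂ ≤ W g₂ x :=
    integral_mono ((integrable_const _).sub i2) (W_int hn2 x) fun y => le_max_left _ _
  rw [integral_sub (integrable_const _) i1] at e1
  rw [integral_sub (integrable_const _) i2] at e2
  simp only [integral_const, probReal_univ, smul_eq_mul, one_mul] at e1 e2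
  rw [e1, hm]; exact e2

end eq

/-- **Uniqueness of the aggregate strategy in the Population Lotto game.**  For every budget law
`β` on `(0,∞)`, any two Nash equilibria have the same aggregate population strategy. -/
theorem result (β : Measure ℝ) [IsProbabilityMeasure β] (hβ : β (Iic 0) = 0)
    {I₁ : Type*} [MeasurableSpace I₁] {m₁ : Measure I₁} {b₁ : I₁ → ℝ} {f₁ : Kernel I₁ ℝ}
    {I₂ : Type*} [MeasurableSpace I₂] {m₂ : Measure I₂} {b₂ : I₂ → ℝ} {f₂ : Kernel I₂ ℝ}
    (h₁ : IsNash β m₁ b₁ f₁) (h₂ : IsNash β m₂ b₂ f₂) :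
    m₁.bind f₁ = m₂.bind f₂ := by
  have p1 := h₁.gprob
  have p2 := h₂.gprob
  have na1 := h₁.noatom hβ
  have na2 := h₂.noatom hβ
  have n1 := h₁.gneg
  have n2 := h₂.gneg
  have hmean := h₁.mean.trans h₂.mean.symm
  have P : Pair (G (m₁.bind f₁)) (G (m₂.bind f₂)) (W (m₁.bind f₁)) (W (m₂.bind f₂)) (W β) :=
    { cont₁ := G_cont na1
      cont₂ := G_cont na2
      conc₁ := h₁.conc hβ
      conc₂ := h₂.conc hβ
      zero₁ := G_zero n1 na1
      zero₂ := G_zero n2 na2
      der₁ := W_deriv n1 na1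
      der₂ := W_deriv n2 na2
      start₁ := W_zero n1
      start₂ := W_zero n2
      ge₁ := fun x _ => h₁.ge hβ x
      ge₂ := fun x _ => h₂.ge hβ x
      loc₁ := fun x _ hx => h₁.loc hβ hx
      loc₂ := fun x _ hx => h₂.loc hβ hx
      lim₁ := G_lim
      lim₂ := G_lim
      inf₁ := fun p _ hp x hx => inf_aux n1 n2 hmean (hp x hx)
      inf₂ := fun p _ hp x hx => inf_aux n2 n1 hmean.symm (hp x hx) }
  have hG : ∀ x, G (m₁.bind f₁) x = G (m₂.bind f₂) x := by
    intro x
    rcases le_or_gt 0 x with hx | hx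
    · exact P.zeros hx (le_antisymm (P.core hx) (P.symm.core hx))
    · have e1 : (m₁.bind f₁) (Iic x) = 0 := measure_mono_null (Iic_subset_Iio.2 hx) n1
      have e2 : (m₂.bind f₂) (Iic x) = 0 := measure_mono_null (Iic_subset_Iio.2 hx) n2
      unfold G
      rw [measureReal_def, measureReal_def, e1, e2]
  refine Measure.ext_of_Iic _ _ fun x => ?_
  have := hG x
  unfold G at this
  rw [measureReal_def, measureReal_def] at this
  exact (ENNReal.toReal_eq_toReal_iff' (measure_ne_top _ _) (measure_ne_top _ _)).1 this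

end Pool.Agent.Results.MP_ed16aa_pr.UniqueAggregate
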